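import Pool.Agent.P8H42.Trunc.L

/-!
# MP_6a062b_co: standard Young tableaux of a square with two corner cells removed

For every `n ≥ 2` the number of standard Young tableaux of the `n × n` square without the two
rightmost cells of its first row is given by the conjectured product formula.

Proof in short. Cutting at the cell `(1, n - 2)` writes the number as a sum, over the Young
diagrams inside the first `n - 3` columns, of products of two numbers of ordinary Young tableaux.
The beta integral and a bordered Cauchy-Binet formula turn the sum into an integral over `[0, 1]`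
of `(u (1 - u)) ^ (n - 3)` times a bordered determinant. The determinant is evaluated by column
operations that kill its upper part, and equals `u R R'' + R R' - u R' ^ 2` for a function `R` with
`R''' = u ^ (n - 3) (1 - u) ^ (n - 2)`; the integral of this expression against the weight is a
beta integral up to an explicit exact derivative.
-/

set_option autoImplicit false

namespace Pool.Agent.Results.MP_6a062b_co.ProductFormula

open Finset

/-- The shape `D_n`: the cells `(i, j)`, `1 ≤ i, j ≤ n` (row `i`, column `j`), without the two cells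
`(1, n - 1)` and `(1, n)`. -/
def D (n : ℕ) : Finset (ℕ × ℕ) := (Icc 1 n ×ˢ Icc 1 n) \ {(1, n - 1), (1, n)}

/-- A standard Young tableau of shape `S`: a bijection `T` from `S` to `{1, ..., |S|}` with
`T (i, j) < T (i, j + 1)` and `T (i, j) < T (i + 1, j)` whenever both cells are in `S`. -/
def IsSYT (S : Finset (ℕ × ℕ)) (T : S → ℕ) : Prop :=
  Set.BijOn T Set.univ (Set.Icc 1 S.card) ∧
  (∀ p q : S, q.1 = (p.1.1, p.1.2 + 1) → T p < T q) ∧
  (∀ p q : S, q.1 = (p.1.1 + 1, p.1.2) → T p < T q)

/-- The number of standard Young tableaux of shape `S`. -/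
noncomputable def numSYT (S : Finset (ℕ × ℕ)) : ℕ := {T : S → ℕ | IsSYT S T}.ncard

/-- `F_m = 0! 1! ... (m - 1)!`. -/
def F (m : ℕ) : ℕ := ∏ i ∈ range m, i.factorial

open Pool.Agent.P8H42.Trunc in
theorem two : e adj (Dn 2) = 1 := by
  have h : Dn 2 = {(2, 1), (2, 2)} := by decide
  have h1 : mx adj ({(2, 1), (2, 2)} : Finset (ℕ × ℕ)) = {(2, 2)} := by
    ext ⟨i, j⟩
    simp only [mem_mx, mem_insert, mem_singleton, Prod.mk.injEq, adj, forall_eq_or_imp, forall_eq]
    omega
  have h2 : mx adj ({(2, 1)} : Finset (ℕ × ℕ)) = {(2, 1)} := by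
    ext ⟨i, j⟩
    simp only [mem_mx, mem_singleton, Prod.mk.injEq, adj, forall_eq]
    omega
  have h3 : ({(2, 1), (2, 2)} : Finset (ℕ × ℕ)).erase (2, 2) = {(2, 1)} := by decide
  have h4 : ({(2, 1)} : Finset (ℕ × ℕ)).erase (2, 1) = ∅ := by decide
  rw [h, e_max _ (by simp), h1, sum_singleton, h3, e_max _ (by simp), h2, sum_singleton, h4,
    e_empty]

/-- **The product formula for the number of standard Young tableaux of the truncated square.** -/
theorem result (n : ℕ) (hn : 2 ≤ n) :
    (numSYT (D n) : ℚ) =
      6 * ((n ^ 2 - 2).factorial : ℚ) * ((3 * n - 4).factorial : ℚ) ^ 2 * (F (n - 2) : ℚ) ^ 2 /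
        (((6 * n - 8).factorial : ℚ) * ((2 * n - 2).factorial : ℚ) *
          ((n - 2).factorial : ℚ) ^ 2 * (F (2 * n - 4) : ℚ)) := by
  have h0 : numSYT (D n) = Pool.Agent.P8H42.Trunc.e Pool.Agent.P8H42.Trunc.adj
      (Pool.Agent.P8H42.Trunc.Dn n) := Pool.Agent.P8H42.Trunc.numSYT_eq _
  rw [h0]
  by_cases h2 : n = 2
  · subst h2
    rw [two]
    norm_num [F, Nat.factorial]
  · obtain ⟨m, rfl⟩ : ∃ m, n = m + 3 := ⟨n - 3, by omega⟩
    exact Pool.Agent.P8H42.Trunc.formula m

end Pool.Agent.Results.MP_6a062b_co.ProductFormula
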